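import Pool.Agent.K6.H56.Cr6

/-!
# Croft's first question: no line meets the set in a length from a prescribed countable set

For every countable set `D` of real numbers there is a Borel set `E` in the plane with
`0 < |E| < ∞` such that `H^1 (L ∩ E) ≠ t` for every line `L` and every positive `t` in `D`.
With `D` the set of rational numbers this answers the first question in the negative: the positive
lengths of the line sections of `E` are all irrational or infinite, so they contain no interval.

A line is `{x | ⟪x, θ⟫ = p}` with `θ` a unit vector and `p` real, as in the problem, and `H^1` is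
Mathlib's one-dimensional Hausdorff measure.

The kill lemma of the starting library for MP_f884a2_an (abstract form) is used.
-/

open MeasureTheory Set Filter Topology Croft
open scoped ENNReal Real

namespace Pool.Agent.Results.MP_ec7c5f_an.CountableLengths

/-- The Euclidean plane. -/
abbrev Plane := EuclideanSpace ℝ (Fin 2)

/-- The line `L(θ, p) = {x : x · θ = p}`. -/
def line (θ : Plane) (p : ℝ) : Set Plane := {x | inner ℝ x θ = p}

/-- the isometry between `ℂ` and the Euclidean plane -/
noncomputable def phi : ℂ ≃ₗᵢ[ℝ] Plane := Complex.orthonormalBasisOneI.repr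

theorem exists_angle (θ : Plane) (hθ : ‖θ‖ = 1) : ∃ α : ℝ, phi.symm θ = Complex.exp (α * Complex.I) := by
  have h1 : ‖phi.symm θ‖ = 1 := by rw [phi.symm.norm_map]; exact hθ
  refine ⟨Complex.arg (phi.symm θ), ?_⟩
  have h2 := Complex.norm_mul_exp_arg_mul_I (phi.symm θ)
  rw [h1, Complex.ofReal_one, one_mul] at h2
  exact h2.symm

theorem inner_pt (α p σ : ℝ) : inner ℝ (pt α p σ) (Complex.exp (α * Complex.I)) = p := by
  rw [Complex.inner]
  unfold pt
  rw [map_mul, ← Complex.exp_conj]
  have h1 : (starRingEnd ℂ) ((α : ℂ) * Complex.I) = -(α * Complex.I) := by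
    rw [map_mul, Complex.conj_I, Complex.conj_ofReal]; ring
  rw [h1]
  have h2 : Complex.exp (α * Complex.I) * (Complex.exp (-(α * Complex.I)) *
      (starRingEnd ℂ) ((p : ℂ) + σ * Complex.I)) = (starRingEnd ℂ) ((p : ℂ) + σ * Complex.I) := by
    rw [← mul_assoc, ← Complex.exp_add]
    simp
  rw [h2]
  simp

theorem exists_param (α p : ℝ) (z : ℂ) (hz : inner ℝ z (Complex.exp (α * Complex.I)) = p) :
    ∃ σ : ℝ, z = pt α p σ := by
  set w : ℂ := Complex.exp (-(α * Complex.I)) * z with hw
  have hzw : z = Complex.exp (α * Complex.I) * w := by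
    rw [hw, ← mul_assoc, ← Complex.exp_add]
    simp
  have hre : w.re = p := by
    have h1 := inner_pt α w.re w.im
    have h2 : pt α w.re w.im = z := by
      unfold pt
      rw [hzw]
      congr 1
      exact Complex.re_add_im w
    rw [h2] at h1
    rw [← h1]; exact hz
  refine ⟨w.im, ?_⟩
  unfold pt
  rw [hzw, ← hre]
  congr 1
  exact (Complex.re_add_im w).symm

/-- The length of a section, computed in the parameter of the line. -/
theorem length_section (θ : Plane) (α : ℝ) (hα : phi.symm θ = Complex.exp (α * Complex.I)) (p : ℝ)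
    (E : Set Plane) : μH[1] (line θ p ∩ E) = volume {σ : ℝ | phi (pt α p σ) ∈ E} := by
  have hiso : Isometry fun σ : ℝ => phi (pt α p σ) := by
    apply Isometry.of_dist_eq
    intro σ τ
    rw [phi.dist_map, dist_eq_norm, Real.dist_eq]
    exact Pool.Agent.K6.H56.Cr.norm_pt_sub (α, p) σ τ
  have himg : line θ p ∩ E = (fun σ : ℝ => phi (pt α p σ)) '' {σ : ℝ | phi (pt α p σ) ∈ E} := by
    ext x
    constructor
    · rintro ⟨h1, h2⟩
      have h3 : inner ℝ (phi.symm x) (Complex.exp (α * Complex.I)) = p := by
        rw [← hα, phi.symm.inner_map_map]; exact h1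
      obtain ⟨σ, hσ⟩ := exists_param α p _ h3
      have h4 : phi (pt α p σ) = x := by rw [← hσ, phi.apply_symm_apply]
      exact ⟨σ, by rw [mem_ofPred_eq, h4]; exact h2, h4⟩
    · rintro ⟨σ, h1, rfl⟩
      refine ⟨?_, h1⟩
      show inner ℝ (phi (pt α p σ)) θ = p
      rw [← phi.apply_symm_apply θ, phi.inner_map_map, hα]
      exact inner_pt α p σ
  rw [himg, hiso.hausdorffMeasure_image (Or.inl zero_le_one), hausdorffMeasure_real]

/-- **Croft's first question, negative answer in a strong form.** For every countable `D ⊆ ℝ` some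
Borel plane set `E` with `0 < |E| < ∞` has no line section whose length is a positive member of `D`. -/
theorem countable_lengths (D : Set ℝ) (hD : D.Countable) : ∃ E : Set Plane,
    MeasurableSet E ∧ 0 < volume E ∧ volume E < ∞ ∧
      ∀ t ∈ D, 0 < t → ∀ θ : Plane, ‖θ‖ = 1 → ∀ p : ℝ, μH[1] (line θ p ∩ E) ≠ ENNReal.ofReal t := by
  obtain ⟨E, h1, h2, h3, h4⟩ := Pool.Agent.K6.H56.Cr.main_C D hD
  have hφ : MeasurePreserving phi.symm volume volume := phi.symm.measurePreserving
  refine ⟨phi.symm ⁻¹' E, hφ.measurable h1, ?_, ?_, ?_⟩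
  · rw [hφ.measure_preimage h1.nullMeasurableSet]; exact h2
  · rw [hφ.measure_preimage h1.nullMeasurableSet]; exact h3
  · intro t ht ht0 θ hθ p heq
    obtain ⟨α, hα⟩ := exists_angle θ hθ
    rw [length_section θ α hα] at heq
    apply h4 t ht ht0 (α, p)
    rw [← heq]
    congr 1
    ext σ
    simp

/-- **Answer to Q1 (Croft).** The first part is the strong form: for every countable set `D` of reals
there is a Borel plane set `E` of positive finite area such that no line `L` has
`H^1 (L ∩ E) = t` for a positive `t ∈ D`. The second part is the literal negation of the question: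
it is not true that every Lebesgue measurable `E` with `0 < |E| < ∞` has a `δ > 0` such that each
`t ∈ (0, δ)` is the value of `H^1 (L ∩ E)` for some line `L`. -/
theorem result :
    (∀ D : Set ℝ, D.Countable → ∃ E : Set Plane,
      MeasurableSet E ∧ 0 < volume E ∧ volume E < ∞ ∧
        ∀ t ∈ D, 0 < t → ∀ θ : Plane, ‖θ‖ = 1 → ∀ p : ℝ,
          μH[1] (line θ p ∩ E) ≠ ENNReal.ofReal t) ∧
    ¬ (∀ E : Set Plane, NullMeasurableSet E volume → 0 < volume E → volume E < ∞ →
      ∃ δ : ℝ, 0 < δ ∧ ∀ t ∈ Ioo 0 δ, ∃ θ : Plane, ‖θ‖ = 1 ∧ ∃ p : ℝ,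
        μH[1] (line θ p ∩ E) = ENNReal.ofReal t) := by
  refine ⟨countable_lengths, fun hcon => ?_⟩
  obtain ⟨E, h1, h2, h3, h4⟩ := countable_lengths (range ((↑) : ℚ → ℝ)) (countable_range _)
  obtain ⟨δ, hδ, h5⟩ := hcon E h1.nullMeasurableSet h2 h3
  obtain ⟨q, hq0, hqδ⟩ := exists_rat_btwn hδ
  obtain ⟨θ, hθ, p, h6⟩ := h5 q ⟨hq0, hqδ⟩
  exact h4 q (mem_range_self q) hq0 θ hθ p h6

end Pool.Agent.Results.MP_ec7c5f_an.CountableLengths
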